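import Pool.Agent.Helper481.MB6

/-!
The maximal value of the translative convex hull constants `c_tr^τ(K)` for `τ = m` (Gromov's mass)
and `τ = m*` (Gromov's mass*, the Benson volume), in every dimension.

The definitions of `IsConvexBody` (compact convex set with nonempty interior), `relBall K = (K-K)/2`,
`crossPolytope`, `maxCross` and `massVol` are in `Pool.Agent.Helper481.MS`; `eball n` is the
Euclidean unit ball of `ℝ ^ n`, `kappa n` its volume and `cube n = [-1, 1] ^ n`.
-/

set_option autoImplicit false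
open MeasureTheory Set Pointwise

namespace Pool.Agent.Results.MP_ccd96b_co.MassMax

open Pool.Agent.Helper481.MS (IsConvexBody relBall crossPolytope maxCross massVol std exists_max
  cross_sub vol_cross std_body relBall_neg relBall_convex relBall_compact relBall_ball hull_le
  sub_hull vol_add_seg seg_eq proj)
open Pool.Agent.Helper481.MB (kappa eball cube vol_std hull_bound vol_le_relBall det_eball
  eball_compact eball_convex proj_eball vol_cube cube_compact cube_convex vol_cube_seg)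

variable {d : ℕ}

/-- The parallelotope `{c + ∑ tᵢ vᵢ : |tᵢ| ≤ 1}` with centre `c` and half-edges `v i`. -/
def parallelotope (c : Fin d → ℝ) (v : Fin d → Fin d → ℝ) : Set (Fin d → ℝ) :=
  {x | ∃ t : Fin d → ℝ, (∀ i, |t i| ≤ 1) ∧ x = c + ∑ i, t i • v i}

/-- The minimal volume of a parallelotope containing `M`. -/
noncomputable def minBox (M : Set (Fin d → ℝ)) : ENNReal :=
  ⨅ (c : Fin d → ℝ) (v : Fin d → Fin d → ℝ) (_ : M ⊆ parallelotope c v),
    volume (parallelotope c v)

/-- Gromov's mass* (the Benson volume) of `S` for the norm with unit ball `M`: the multiple of the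
Lebesgue measure for which a parallelotope of minimal volume circumscribed about `M` has volume
`2 ^ d`. -/
noncomputable def massStarVol (M S : Set (Fin d → ℝ)) : ENNReal :=
  ENNReal.ofReal (2 ^ d) / minBox M * volume S

/-- The maximal normalised volume `μ`, in the relative norm of `K`, of the convex hull of the union
of `K` and a translate of `K` that meets `K`. -/
noncomputable def cTr (μ : Set (Fin d → ℝ) → Set (Fin d → ℝ) → ENNReal) (K : Set (Fin d → ℝ)) :
    ENNReal :=
  ⨆ (p : Fin d → ℝ) (_ : ((p +ᵥ K) ∩ K).Nonempty), μ (relBall K) (convexHull ℝ (K ∪ (p +ᵥ K)))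

theorem sub_relBall {K : Set (Fin d → ℝ)} (h : ∀ x ∈ K, -x ∈ K) : K ⊆ relBall K := by
  intro x hx
  refine ⟨x - (-x), ⟨x, hx, -x, h x hx, rfl⟩, ?_⟩
  show (1 / 2 : ℝ) • (x - (-x)) = x
  module

theorem relBall_sub {K : Set (Fin d → ℝ)} (hc : Convex ℝ K) (h : ∀ x ∈ K, -x ∈ K) :
    relBall K ⊆ K := by
  rintro _ ⟨_, ⟨x, hx, y, hy, rfl⟩, rfl⟩
  have h1 := hc hx (h y hy) (show (0:ℝ) ≤ 1 / 2 by norm_num) (show (0:ℝ) ≤ 1 / 2 by norm_num)
    (by norm_num)
  show (1 / 2 : ℝ) • (x - y) ∈ K
  have h2 : (1 / 2 : ℝ) • (x - y) = (1 / 2 : ℝ) • x + (1 / 2 : ℝ) • (-y) := by module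
  rwa [h2]

/-! ### Gromov's mass -/

theorem mass_upper {n : ℕ} {K : Set (Fin (n + 1) → ℝ)} (hK : IsConvexBody K)
    {p : Fin (n + 1) → ℝ} (hp : ((p +ᵥ K) ∩ K).Nonempty) :
    massVol (relBall K) (convexHull ℝ (K ∪ (p +ᵥ K))) ≤ kappa (n + 1) + 2 * kappa n := by
  obtain ⟨v, hv, hpos, hmax⟩ := exists_max hK
  have hs0 : volume (std (n + 1)) ≠ 0 :=
    (Measure.measure_pos_of_nonempty_interior volume
      (std_body (Nat.succ_pos n)).interior_nonempty).ne'
  have hst : volume (std (n + 1)) ≠ ⊤ := (std_body (Nat.succ_pos n)).isCompact.measure_lt_top.ne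
  have hD : ∀ w : Fin (n + 1) → Fin (n + 1) → ℝ, (∀ i, w i ∈ relBall K) →
      |(Matrix.of w).det| ≤ |(Matrix.of v).det| := by
    intro w hw
    have h1 : volume (crossPolytope 0 w) ≤ maxCross (relBall K) :=
      le_iSup_of_le 0 (le_iSup_of_le w (le_iSup_of_le (cross_sub hK.convex hw) le_rfl))
    rw [vol_cross, hmax, ENNReal.mul_le_mul_iff_left hs0 hst] at h1
    exact (ENNReal.ofReal_le_ofReal_iff (abs_nonneg _)).1 h1
  have h2 := hull_bound hK.isCompact hK.convex hD hp
  have hD0 : ENNReal.ofReal |(Matrix.of v).det| ≠ 0 := by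
    rw [Ne, ENNReal.ofReal_eq_zero, not_le]
    exact hpos
  unfold massVol
  rw [hmax, ← vol_std (Nat.succ_pos n)]
  calc volume (std (n + 1)) / (ENNReal.ofReal |(Matrix.of v).det| * volume (std (n + 1))) *
        volume (convexHull ℝ (K ∪ (p +ᵥ K)))
      ≤ volume (std (n + 1)) / (ENNReal.ofReal |(Matrix.of v).det| * volume (std (n + 1))) *
        ((kappa (n + 1) + 2 * kappa n) * ENNReal.ofReal |(Matrix.of v).det|) := by gcongr
    _ = (kappa (n + 1) + 2 * kappa n) * ((volume (std (n + 1)) * (volume (std (n + 1)))⁻¹) *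
        (ENNReal.ofReal |(Matrix.of v).det| * (ENNReal.ofReal |(Matrix.of v).det|)⁻¹)) := by
        rw [div_eq_mul_inv, ENNReal.mul_inv (Or.inl hD0) (Or.inl ENNReal.ofReal_ne_top)]
        ring
    _ = kappa (n + 1) + 2 * kappa n := by
        rw [ENNReal.mul_inv_cancel hs0 hst, ENNReal.mul_inv_cancel hD0 ENNReal.ofReal_ne_top,
          mul_one, mul_one]

theorem eball_neg {n : ℕ} : ∀ x ∈ eball n, -x ∈ eball n := by
  intro x hx
  have h1 : ∑ i, x i ^ 2 ≤ 1 := hx
  show ∑ i, (-x) i ^ 2 ≤ 1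
  simpa using h1

theorem eball_body (n : ℕ) : IsConvexBody (eball n) := by
  refine ⟨eball_compact n, eball_convex n, ⟨0, ?_⟩⟩
  rw [mem_interior]
  refine ⟨{x | ∑ i, x i ^ 2 < 1}, ?_, ?_, by simp⟩
  · intro x hx
    have hx' : ∑ i, x i ^ 2 < 1 := hx
    exact hx'.le
  · exact isOpen_lt (by fun_prop) continuous_const

theorem mass_ball {n : ℕ} : ∃ p : Fin (n + 1) → ℝ, ((p +ᵥ eball (n + 1)) ∩ eball (n + 1)).Nonempty ∧
    kappa (n + 1) + 2 * kappa n ≤
      massVol (relBall (eball (n + 1))) (convexHull ℝ (eball (n + 1) ∪ (p +ᵥ eball (n + 1)))) := by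
  have he : ∀ t : ℝ, |t| = 1 → (Pi.single 0 t : Fin (n + 1) → ℝ) ∈ eball (n + 1) := by
    intro t ht
    show ∑ i, (Pi.single 0 t : Fin (n + 1) → ℝ) i ^ 2 ≤ 1
    rw [Fin.sum_univ_succ]
    rw [Pi.single_eq_same, ← sq_abs t, ht]
    simp
  refine ⟨Pi.single 0 2, ⟨Pi.single 0 1, ⟨Pi.single 0 (-1), he _ (by norm_num), ?_⟩,
    he _ (by norm_num)⟩, ?_⟩
  · show (Pi.single 0 2 : Fin (n + 1) → ℝ) + Pi.single 0 (-1) = Pi.single 0 1
    rw [← Pi.single_add]
    norm_num
  · obtain ⟨v, hv, hpos, hmax⟩ := exists_max (eball_body (n + 1))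
    have hD : |(Matrix.of v).det| ≤ 1 :=
      det_eball v fun i => relBall_sub (eball_convex _) eball_neg (hv i)
    have hs0 : volume (std (n + 1)) ≠ 0 :=
      (Measure.measure_pos_of_nonempty_interior volume
        (std_body (Nat.succ_pos n)).interior_nonempty).ne'
    have hst : volume (std (n + 1)) ≠ ⊤ := (std_body (Nat.succ_pos n)).isCompact.measure_lt_top.ne
    have h1 : maxCross (relBall (eball (n + 1))) ≤ volume (std (n + 1)) := by
      rw [hmax]
      calc ENNReal.ofReal |(Matrix.of v).det| * volume (std (n + 1))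
          ≤ ENNReal.ofReal 1 * volume (std (n + 1)) := by gcongr
        _ = volume (std (n + 1)) := by rw [ENNReal.ofReal_one, one_mul]
    have h2 : volume (eball (n + 1)) + 2 * volume (eball n) ≤
        volume (convexHull ℝ (eball (n + 1) ∪ ((Pi.single 0 2 : Fin (n + 1) → ℝ) +ᵥ
          eball (n + 1)))) := by
      refine le_trans ?_ (measure_mono (sub_hull _ _))
      rw [← seg_eq, vol_add_seg (eball_compact _) (eball_convex _), proj_eball]
    unfold massVol
    rw [← vol_std (Nat.succ_pos n)]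
    calc kappa (n + 1) + 2 * kappa n
        = volume (std (n + 1)) / volume (std (n + 1)) * (kappa (n + 1) + 2 * kappa n) := by
          rw [ENNReal.div_self hs0 hst, one_mul]
      _ ≤ _ := by
          gcongr
          exact h2

/-! ### Gromov's mass* -/

theorem cube_body (n : ℕ) : IsConvexBody (cube n) := by
  refine ⟨cube_compact n, cube_convex n, ⟨0, ?_⟩⟩
  rw [mem_interior]
  refine ⟨⋂ i, {x | |x i| < 1}, ?_, ?_, by simp⟩
  · intro x hx i
    exact (mem_iInter.1 hx i).le
  · exact isOpen_iInter_of_finite fun i => isOpen_lt (by fun_prop) continuous_const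

theorem cube_parallelotope (n : ℕ) :
    parallelotope 0 (fun i : Fin n => (Pi.single i (1 : ℝ) : Fin n → ℝ)) = cube n := by
  have h1 : ∀ t : Fin n → ℝ, (0 : Fin n → ℝ) + ∑ i, t i • (Pi.single i (1 : ℝ) : Fin n → ℝ) = t := by
    intro t
    ext j
    simp [Finset.sum_apply, Pi.single_apply]
  ext x
  constructor
  · rintro ⟨t, ht, rfl⟩
    rw [h1]
    exact ht
  · intro hx
    exact ⟨x, hx, (h1 x).symm⟩

theorem vol_le_minBox {K : Set (Fin d → ℝ)} (hK : IsConvexBody K) :
    volume K ≤ minBox (relBall K) :=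
  le_iInf fun _ => le_iInf fun _ => le_iInf fun h =>
    (vol_le_relBall hK.isCompact).trans (measure_mono h)

/-- The normalisation of mass* is meaningful: the minimal volume is positive and finite. -/
theorem minBox_pos_finite {K : Set (Fin d → ℝ)} (hK : IsConvexBody K) :
    minBox (relBall K) ≠ 0 ∧ minBox (relBall K) ≠ ⊤ := by
  constructor
  · intro h
    have h1 := vol_le_minBox hK
    rw [h] at h1
    exact (Measure.measure_pos_of_nonempty_interior volume hK.interior_nonempty).ne'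
      (le_antisymm h1 zero_le)
  · obtain ⟨R, hR⟩ := (relBall_compact hK.isCompact).isBounded.subset_closedBall 0
    have h1 : relBall K ⊆ parallelotope 0 (fun i => Pi.single i (max R 1)) := by
      intro x hx
      have h2 := hR hx
      rw [mem_closedBall_zero_iff] at h2
      refine ⟨fun i => x i / max R 1, fun i => ?_, ?_⟩
      · have h3 : 0 < max R 1 := lt_max_of_lt_right one_pos
        rw [abs_div, abs_of_pos h3, div_le_one h3]
        exact ((norm_le_pi_norm x i).trans h2).trans (le_max_left _ _)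
      · have h3 : max R 1 ≠ 0 := (lt_max_of_lt_right one_pos).ne'
        ext j
        simp [Finset.sum_apply, Pi.single_apply, h3]
    have h4 : minBox (relBall K) ≤ volume (parallelotope (0 : Fin d → ℝ)
        (fun i => Pi.single i (max R 1))) :=
      iInf_le_of_le 0 (iInf_le_of_le _ (iInf_le_of_le h1 le_rfl))
    have h5 : parallelotope (0 : Fin d → ℝ) (fun i => Pi.single i (max R 1)) ⊆
        Metric.closedBall 0 (max R 1) := by
      rintro x ⟨t, ht, rfl⟩
      rw [mem_closedBall_zero_iff, pi_norm_le_iff_of_nonneg (le_max_of_le_right zero_le_one)]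
      intro j
      have h6 : ((0 : Fin d → ℝ) + ∑ i, t i • (Pi.single i (max R 1) : Fin d → ℝ)) j =
          t j * max R 1 := by
        simp [Finset.sum_apply, Pi.single_apply]
      rw [h6, norm_mul, Real.norm_eq_abs, Real.norm_eq_abs, abs_of_pos (lt_max_of_lt_right one_pos)]
      calc |t j| * max R 1 ≤ 1 * max R 1 := by
            gcongr
            exact ht j
        _ = max R 1 := one_mul _
    exact ((h4.trans (measure_mono h5)).trans_lt
      (isCompact_closedBall _ _).measure_lt_top).ne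

theorem star_upper {n : ℕ} {K : Set (Fin (n + 1) → ℝ)} (hK : IsConvexBody K)
    {p : Fin (n + 1) → ℝ} (hp : ((p +ᵥ K) ∩ K).Nonempty) :
    massStarVol (relBall K) (convexHull ℝ (K ∪ (p +ᵥ K))) ≤
      ENNReal.ofReal ((n + 2) * 2 ^ (n + 1)) := by
  obtain ⟨h0, ht⟩ := minBox_pos_finite hK
  unfold massStarVol
  calc ENNReal.ofReal (2 ^ (n + 1)) / minBox (relBall K) * volume (convexHull ℝ (K ∪ (p +ᵥ K)))
      ≤ ENNReal.ofReal (2 ^ (n + 1)) / minBox (relBall K) *
        (ENNReal.ofReal (n + 2) * minBox (relBall K)) := by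
        gcongr
        refine (hull_le hK.isCompact hK.convex hp).trans ?_
        gcongr
        exact vol_le_minBox hK
    _ = ENNReal.ofReal (n + 2) * ENNReal.ofReal (2 ^ (n + 1)) *
        (minBox (relBall K) * (minBox (relBall K))⁻¹) := by
        rw [div_eq_mul_inv]; ring
    _ = ENNReal.ofReal ((n + 2) * 2 ^ (n + 1)) := by
        rw [ENNReal.mul_inv_cancel h0 ht, mul_one, ← ENNReal.ofReal_mul (by positivity)]

theorem cube_neg {n : ℕ} : ∀ x ∈ cube n, -x ∈ cube n := by
  intro x hx i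
  simpa using hx i

theorem star_cube {n : ℕ} : ∃ p : Fin (n + 1) → ℝ, ((p +ᵥ cube (n + 1)) ∩ cube (n + 1)).Nonempty ∧
    ENNReal.ofReal ((n + 2) * 2 ^ (n + 1)) ≤
      massStarVol (relBall (cube (n + 1))) (convexHull ℝ (cube (n + 1) ∪ (p +ᵥ cube (n + 1)))) := by
  refine ⟨fun _ => 2, ⟨fun _ => 1, ⟨fun _ => -1, fun i => by norm_num, ?_⟩,
    fun i => by norm_num⟩, ?_⟩
  · ext i
    show (2:ℝ) + -1 = 1
    norm_num
  · have h1 : minBox (relBall (cube (n + 1))) ≤ ENNReal.ofReal (2 ^ (n + 1)) := by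
      rw [← vol_cube, ← cube_parallelotope]
      refine iInf_le_of_le 0 (iInf_le_of_le _ (iInf_le_of_le ?_ le_rfl))
      rw [cube_parallelotope]
      exact relBall_sub (cube_convex _) cube_neg
    have h2 : ENNReal.ofReal ((n + 2) * 2 ^ (n + 1)) ≤
        volume (convexHull ℝ (cube (n + 1) ∪ ((fun _ => (2:ℝ) : Fin (n + 1) → ℝ) +ᵥ
          cube (n + 1)))) := by
      refine le_trans ?_ (measure_mono (sub_hull _ _))
      rw [vol_cube_seg]
      refine ENNReal.ofReal_le_ofReal (le_of_eq ?_)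
      push_cast
      ring
    have h0 : ENNReal.ofReal ((2:ℝ) ^ (n + 1)) ≠ 0 := by
      rw [Ne, ENNReal.ofReal_eq_zero, not_le]
      positivity
    unfold massStarVol
    calc ENNReal.ofReal ((n + 2) * 2 ^ (n + 1))
        = ENNReal.ofReal (2 ^ (n + 1)) / ENNReal.ofReal (2 ^ (n + 1)) *
          ENNReal.ofReal ((n + 2) * 2 ^ (n + 1)) := by
          rw [ENNReal.div_self h0 ENNReal.ofReal_ne_top, one_mul]
      _ ≤ _ := by gcongr

/-- For every `d ≥ 1`: the largest value of `c_tr^m(K)` over all convex bodies `K` of `ℝ ^ d` is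
`κ_d + 2 κ_{d-1}`, attained by the Euclidean ball, and the largest value of `c_tr^{m*}(K)` is
`(d + 1) 2 ^ d`, attained by the cube. -/
theorem result (d : ℕ) (hd : 1 ≤ d) :
    IsGreatest {c : ENNReal | ∃ K : Set (Fin d → ℝ), IsConvexBody K ∧ cTr massVol K = c}
      (kappa d + 2 * kappa (d - 1)) ∧
    (IsConvexBody (eball d) ∧ cTr massVol (eball d) = kappa d + 2 * kappa (d - 1)) ∧
    IsGreatest {c : ENNReal | ∃ K : Set (Fin d → ℝ), IsConvexBody K ∧ cTr massStarVol K = c}
      (ENNReal.ofReal ((d + 1) * 2 ^ d)) ∧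
    (IsConvexBody (cube d) ∧ cTr massStarVol (cube d) = ENNReal.ofReal ((d + 1) * 2 ^ d)) := by
  obtain ⟨n, rfl⟩ : ∃ n, d = n + 1 := ⟨d - 1, by omega⟩
  have hc : ENNReal.ofReal ((((n + 1 : ℕ) : ℝ) + 1) * 2 ^ (n + 1)) =
      ENNReal.ofReal ((n + 2) * 2 ^ (n + 1)) := by
    congr 2
    push_cast
    ring
  rw [hc, Nat.add_sub_cancel]
  have h1 : ∀ K : Set (Fin (n + 1) → ℝ), IsConvexBody K →
      cTr massVol K ≤ kappa (n + 1) + 2 * kappa n :=
    fun K hK => iSup_le fun p => iSup_le fun hp => mass_upper hK hp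
  have h2 : cTr massVol (eball (n + 1)) = kappa (n + 1) + 2 * kappa n := by
    refine le_antisymm (h1 _ (eball_body _)) ?_
    obtain ⟨p, hp, h⟩ := mass_ball (n := n)
    exact le_iSup_of_le p (le_iSup_of_le hp h)
  have h3 : ∀ K : Set (Fin (n + 1) → ℝ), IsConvexBody K →
      cTr massStarVol K ≤ ENNReal.ofReal ((n + 2) * 2 ^ (n + 1)) :=
    fun K hK => iSup_le fun p => iSup_le fun hp => star_upper hK hp
  have h4 : cTr massStarVol (cube (n + 1)) = ENNReal.ofReal ((n + 2) * 2 ^ (n + 1)) := by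
    refine le_antisymm (h3 _ (cube_body _)) ?_
    obtain ⟨p, hp, h⟩ := star_cube (n := n)
    exact le_iSup_of_le p (le_iSup_of_le hp h)
  refine ⟨⟨⟨_, eball_body _, h2⟩, ?_⟩, ⟨eball_body _, h2⟩, ⟨⟨_, cube_body _, h4⟩, ?_⟩,
    ⟨cube_body _, h4⟩⟩
  · rintro c ⟨K, hK, rfl⟩
    exact h1 K hK
  · rintro c ⟨K, hK, rfl⟩
    exact h3 K hK

end Pool.Agent.Results.MP_ccd96b_co.MassMax
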